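import Pool.Agent.Helper17.SO.Stmts

set_option autoImplicit false

/-!
`PAP` of the project SO: the theorem of Mertens for primes in a residue class.
-/

namespace Pool.Agent.Helper2.SO

open Finset ArithmeticFunction ArithmeticFunction.vonMangoldt LSeries
open Pool.Agent.Helper17.SO

/-- indicator of the primes in a residue class -/
noncomputable def PAP_u (m : ℕ) (a : ZMod m) (n : ℕ) : ℝ :=
  if n.Prime then (if (n : ZMod m) = a then 1 else 0) else 0

lemma PAP_u_nonneg (m : ℕ) (a : ZMod m) (n : ℕ) : 0 ≤ PAP_u m a n := by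
  unfold PAP_u
  split_ifs <;> norm_num

lemma PAP_u_le (m : ℕ) (a : ZMod m) (n : ℕ) : PAP_u m a n ≤ 1 := by
  unfold PAP_u
  split_ifs <;> norm_num

lemma PAP_u_zero (m : ℕ) (a : ZMod m) : PAP_u m a 0 = 0 := by
  unfold PAP_u
  rw [if_neg Nat.not_prime_zero]

lemma PAP_u_one (m : ℕ) (a : ZMod m) : PAP_u m a 1 = 0 := by
  unfold PAP_u
  rw [if_neg Nat.not_prime_one]

lemma PAP_split (m : ℕ) (a : ZMod m) (n : ℕ) :
    residueClass a n = PAP_u m a n * Real.log n + (if n.Prime then 0 else residueClass a n) := by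
  unfold PAP_u
  by_cases hp : n.Prime
  · rw [if_pos hp, if_pos hp, add_zero]
    by_cases ha : (n : ZMod m) = a
    · rw [if_pos ha, one_mul]
      unfold residueClass
      rw [Set.indicator_of_mem]
      · exact vonMangoldt_apply_prime hp
      · exact ha
    · rw [if_neg ha, zero_mul]
      unfold residueClass
      rw [Set.indicator_of_notMem]
      exact ha
  · rw [if_neg hp, if_neg hp, zero_mul, zero_add]

lemma PAP_rc_nonneg (m : ℕ) (a : ZMod m) (n : ℕ) :
    0 ≤ (if n.Prime then 0 else residueClass a n) := by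
  split_ifs
  · exact le_rfl
  · exact residueClass_nonneg a n

lemma PAP_pow_ge (n : ℕ) (x : ℝ) (hx : 1 ≤ x) : (n : ℝ) ≤ (n : ℝ) ^ x := by
  rcases Nat.eq_zero_or_pos n with h | h
  · subst h
    rw [Nat.cast_zero, Real.zero_rpow (by linarith)]
  · have h1 : (1 : ℝ) ≤ n := by exact_mod_cast h
    have h2 := Real.rpow_le_rpow_of_exponent_le h1 hx
    rwa [Real.rpow_one] at h2

lemma PAP_div_le (n : ℕ) (x : ℝ) (hx : 1 ≤ x) (c : ℝ) (hc : 0 ≤ c) :
    c / (n : ℝ) ^ x ≤ c / n := by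
  rcases Nat.eq_zero_or_pos n with h | h
  · subst h
    rw [Nat.cast_zero, Real.zero_rpow (by linarith)]
  · have h1 : (0 : ℝ) < n := by exact_mod_cast h
    exact div_le_div_of_nonneg_left hc h1 (PAP_pow_ge n x hx)

lemma PAP_np_summable (m : ℕ) (a : ZMod m) (x : ℝ) (hx : 1 ≤ x) :
    Summable fun n : ℕ => (if n.Prime then 0 else residueClass a n) / (n : ℝ) ^ x := by
  refine Summable.of_nonneg_of_le (fun n => ?_) (fun n => ?_)
    (summable_residueClass_non_primes_div a)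
  · exact div_nonneg (PAP_rc_nonneg m a n) (Real.rpow_nonneg (Nat.cast_nonneg n) x)
  · exact PAP_div_le n x hx _ (PAP_rc_nonneg m a n)

lemma PAP_rc_summable (m : ℕ) (a : ZMod m) (x : ℝ) (hx : 1 < x) :
    Summable fun n : ℕ => residueClass a n / (n : ℝ) ^ x :=
  summable_real_of_abscissaOfAbsConv_lt <|
        (abscissaOfAbsConv_residueClass_le_one a).trans_lt <| mod_cast hx

lemma PAP_D_summable (m : ℕ) (a : ZMod m) (x : ℝ) (hx : 1 < x) :
    Summable fun n : ℕ => PAP_u m a n * Real.log n / (n : ℝ) ^ x := by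
  have h1 := (PAP_rc_summable m a x hx).sub (PAP_np_summable m a x hx.le)
  refine h1.congr (fun n => ?_)
  rw [← sub_div, PAP_split m a n]
  congr 1
  rw [← PAP_split m a n]
  have := PAP_split m a n
  linarith

/-- the L-series of a real sequence at a real point -/
lemma PAP_ls (f : ℕ → ℝ) (hf : f 0 = 0) (x : ℝ) :
    LSeries (fun n => (f n : ℂ)) (x : ℂ) = ((∑' n : ℕ, f n / (n : ℝ) ^ x : ℝ) : ℂ) := by
  rw [Complex.ofReal_tsum, LSeries]
  refine tsum_congr fun n => ?_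
  rw [LSeries.term_def]
  split_ifs with hn
  · subst hn
    rw [hf, zero_div, Complex.ofReal_zero]
  · rw [Complex.ofReal_div, Complex.ofReal_cpow (Nat.cast_nonneg n), Complex.ofReal_natCast]

/-- two-sided bound for the series over the residue class -/
lemma PAP_F (m : ℕ) [NeZero m] (a : ZMod m) (ha : IsUnit a) :
    ∃ C : ℝ, 0 ≤ C ∧ ∀ x : ℝ, 1 < x → x ≤ 2 →
      |(∑' n : ℕ, residueClass a n / (n : ℝ) ^ x) - (m.totient : ℝ)⁻¹ / (x - 1)| ≤ C := by
  have hc : ContinuousOn (fun x : ℝ => LFunctionResidueClassAux a (x : ℂ)) (Set.Icc 1 2) := by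
    refine (continuousOn_LFunctionResidueClassAux a).comp
      Complex.continuous_ofReal.continuousOn ?_
    intro x hx
    simpa using hx.1
  obtain ⟨C, hC⟩ := isCompact_Icc.exists_bound_of_continuousOn hc
  refine ⟨max C 0, le_max_right _ _, fun x h1 h2 => ?_⟩
  have h3 := hC x ⟨h1.le, h2⟩
  have h4 : LFunctionResidueClassAux a (x : ℂ) =
      LSeries (fun n => ((residueClass a n : ℝ) : ℂ)) (x : ℂ) -
        (m.totient : ℂ)⁻¹ / ((x : ℂ) - 1) := by
    refine eqOn_LFunctionResidueClassAux ha ?_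
    simpa using h1
  rw [h4, PAP_ls (residueClass a) (residueClass_apply_zero a) x] at h3
  have h5 : (((∑' n : ℕ, residueClass a n / (n : ℝ) ^ x : ℝ) : ℂ) -
      (m.totient : ℂ)⁻¹ / ((x : ℂ) - 1)) =
      (((∑' n : ℕ, residueClass a n / (n : ℝ) ^ x) - (m.totient : ℝ)⁻¹ / (x - 1) : ℝ) : ℂ) := by
    push_cast
    rfl
  rw [h5, Complex.norm_real, Real.norm_eq_abs] at h3
  exact h3.trans (le_max_left _ _)

/-- two-sided bound for the series over the primes in the residue class -/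
lemma PAP_D (m : ℕ) [NeZero m] (a : ZMod m) (ha : IsUnit a) :
    ∃ C : ℝ, 0 ≤ C ∧ ∀ x : ℝ, 1 < x → x ≤ 2 →
      |(∑' n : ℕ, PAP_u m a n * Real.log n / (n : ℝ) ^ x) -
        (m.totient : ℝ)⁻¹ / (x - 1)| ≤ C := by
  obtain ⟨C, hC0, hC⟩ := PAP_F m a ha
  have hP : 0 ≤ ∑' n : ℕ, (if n.Prime then 0 else residueClass a n) / (n : ℝ) :=
    tsum_nonneg (fun n => div_nonneg (PAP_rc_nonneg m a n) (Nat.cast_nonneg n))
  refine ⟨C + ∑' n : ℕ, (if n.Prime then 0 else residueClass a n) / (n : ℝ),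
    add_nonneg hC0 hP, ?_⟩
  intro x hx1 hx2
  have h1 := abs_le.1 (hC x hx1 hx2)
  have h2 : ∑' n : ℕ, residueClass a n / (n : ℝ) ^ x =
      (∑' n : ℕ, PAP_u m a n * Real.log n / (n : ℝ) ^ x) +
      ∑' n : ℕ, (if n.Prime then 0 else residueClass a n) / (n : ℝ) ^ x := by
    rw [← (PAP_D_summable m a x hx1).tsum_add (PAP_np_summable m a x hx1.le)]
    refine tsum_congr (fun n => ?_)
    rw [← add_div, ← PAP_split m a n]
  have h3 : ∑' n : ℕ, (if n.Prime then 0 else residueClass a n) / (n : ℝ) ^ x ≤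
      ∑' n : ℕ, (if n.Prime then 0 else residueClass a n) / (n : ℝ) := by
    refine Summable.tsum_le_tsum (fun n => ?_) (PAP_np_summable m a x hx1.le)
      (summable_residueClass_non_primes_div a)
    exact PAP_div_le n x hx1.le _ (PAP_rc_nonneg m a n)
  have h4 : 0 ≤ ∑' n : ℕ, (if n.Prime then 0 else residueClass a n) / (n : ℝ) ^ x :=
    tsum_nonneg (fun n => div_nonneg (PAP_rc_nonneg m a n)
      (Real.rpow_nonneg (Nat.cast_nonneg n) x))
  rw [h2] at h1
  rw [abs_le]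
  constructor
  · linarith [h1.1]
  · linarith [h1.2]

lemma PAP_absc (m : ℕ) (a : ZMod m) (x : ℝ) (hx : 1 < x) :
    abscissaOfAbsConv (fun n => (PAP_u m a n : ℂ)) < ((x : ℂ).re : EReal) := by
  have h1 : abscissaOfAbsConv (fun n => (PAP_u m a n : ℂ)) ≤ 1 := by
    refine LSeries.abscissaOfAbsConv_le_of_le_const ⟨1, fun n _ => ?_⟩
    rw [Complex.norm_real, Real.norm_eq_abs, abs_of_nonneg (PAP_u_nonneg m a n)]
    exact PAP_u_le m a n
  refine lt_of_le_of_lt h1 ?_
  rw [Complex.ofReal_re]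
  exact_mod_cast hx

lemma PAP_G_summable (m : ℕ) (a : ZMod m) (x : ℝ) (hx : 1 < x) :
    Summable fun n : ℕ => PAP_u m a n / (n : ℝ) ^ x := by
  refine Summable.of_nonneg_of_le (fun n => ?_) (fun n => ?_)
    (Real.summable_one_div_nat_rpow.2 hx)
  · exact div_nonneg (PAP_u_nonneg m a n) (Real.rpow_nonneg (Nat.cast_nonneg n) x)
  · exact div_le_div_of_nonneg_right (PAP_u_le m a n) (Real.rpow_nonneg (Nat.cast_nonneg n) x)

lemma PAP_deriv (m : ℕ) (a : ZMod m) (x : ℝ) (hx : 1 < x) :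
    HasDerivAt (fun y : ℝ => ∑' n : ℕ, PAP_u m a n / (n : ℝ) ^ y)
      (-∑' n : ℕ, PAP_u m a n * Real.log n / (n : ℝ) ^ x) x := by
  have h1 := (LSeries_hasDerivAt (PAP_absc m a x hx)).real_of_complex
  have h2 : (fun y : ℝ => (LSeries (fun n => (PAP_u m a n : ℂ)) (y : ℂ)).re) =
      fun y : ℝ => ∑' n : ℕ, PAP_u m a n / (n : ℝ) ^ y := by
    funext y
    rw [PAP_ls (PAP_u m a) (PAP_u_zero m a) y, Complex.ofReal_re]
  have h3 : LSeries (logMul (fun n => (PAP_u m a n : ℂ))) (x : ℂ) =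
      ((∑' n : ℕ, PAP_u m a n * Real.log n / (n : ℝ) ^ x : ℝ) : ℂ) := by
    rw [← PAP_ls (fun n => PAP_u m a n * Real.log n) (by rw [PAP_u_zero, zero_mul]) x]
    refine LSeries_congr (fun {n} _ => ?_) _
    rw [LSeries.logMul]
    push_cast
    rw [mul_comm]
  rw [h2, h3, ← Complex.ofReal_neg, Complex.ofReal_re] at h1
  exact h1

/-- the value of the series over the primes -/
lemma PAP_G (m : ℕ) [NeZero m] (a : ZMod m) (ha : IsUnit a) :
    ∃ C : ℝ, 0 ≤ C ∧ ∀ x : ℝ, 1 < x → x ≤ 2 →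
      |(∑' n : ℕ, PAP_u m a n / (n : ℝ) ^ x) + (m.totient : ℝ)⁻¹ * Real.log (x - 1)| ≤ C := by
  obtain ⟨C, hC0, hC⟩ := PAP_D m a ha
  have hd : ∀ x ∈ Set.Ioc (1 : ℝ) 2, HasDerivWithinAt
      (fun y : ℝ => (∑' n : ℕ, PAP_u m a n / (n : ℝ) ^ y) +
        (m.totient : ℝ)⁻¹ * Real.log (y - 1))
      (-(∑' n : ℕ, PAP_u m a n * Real.log n / (n : ℝ) ^ x) + (m.totient : ℝ)⁻¹ * (1 / (x - 1)))
      (Set.Ioc 1 2) x := by
    intro x hx
    have h1 := PAP_deriv m a x hx.1
    have h2 : HasDerivAt (fun y : ℝ => Real.log (y - 1)) (1 / (x - 1)) x := by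
      have h3 : HasDerivAt (fun y : ℝ => y - 1) 1 x := (hasDerivAt_id x).sub_const 1
      exact h3.log (by linarith [hx.1])
    exact (h1.add (h2.const_mul _)).hasDerivWithinAt
  have hb : ∀ x ∈ Set.Ioc (1 : ℝ) 2,
      ‖-(∑' n : ℕ, PAP_u m a n * Real.log n / (n : ℝ) ^ x) +
        (m.totient : ℝ)⁻¹ * (1 / (x - 1))‖ ≤ C := by
    intro x hx
    have h1 := abs_le.1 (hC x hx.1 hx.2)
    have h2 : (m.totient : ℝ)⁻¹ * (1 / (x - 1)) = (m.totient : ℝ)⁻¹ / (x - 1) := by ring
    rw [Real.norm_eq_abs, abs_le, h2]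
    constructor
    · linarith [h1.2]
    · linarith [h1.1]
  refine ⟨C + |∑' n : ℕ, PAP_u m a n / (n : ℝ) ^ (2 : ℝ)|, add_nonneg hC0 (abs_nonneg _), ?_⟩
  intro x hx1 hx2
  have h3 := (convex_Ioc (1 : ℝ) 2).norm_image_sub_le_of_norm_hasDerivWithin_le hd hb
    (x := 2) (y := x) ⟨by norm_num, le_rfl⟩ ⟨hx1, hx2⟩
  have h4 : ((2 : ℝ) - 1) = 1 := by norm_num
  simp only [h4, Real.log_one, mul_zero, add_zero] at h3
  rw [Real.norm_eq_abs, Real.norm_eq_abs] at h3
  have h5 : |x - 2| ≤ 1 := by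
    rw [abs_le]
    constructor <;> linarith
  have h6 : C * |x - 2| ≤ C := by
    have := mul_le_mul_of_nonneg_left h5 hC0
    linarith
  have h7 := abs_sub_abs_le_abs_sub
    ((∑' n : ℕ, PAP_u m a n / (n : ℝ) ^ x) + (m.totient : ℝ)⁻¹ * Real.log (x - 1))
    (∑' n : ℕ, PAP_u m a n / (n : ℝ) ^ (2 : ℝ))
  linarith

/-- truncation -/
lemma PAP_trunc (m : ℕ) [NeZero m] (a : ZMod m) (C : ℝ) (hC0 : 0 ≤ C)
    (hC : ∀ x : ℝ, 1 < x → x ≤ 2 →
      |(∑' n : ℕ, PAP_u m a n * Real.log n / (n : ℝ) ^ x) -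
        (m.totient : ℝ)⁻¹ / (x - 1)| ≤ C) (w : ℕ) (hw : 2 ≤ w) :
    |∑ n ∈ range (w + 1), PAP_u m a n / (n : ℝ) -
      ∑' n : ℕ, PAP_u m a n / (n : ℝ) ^ (1 + 1 / (2 * Real.log w))| ≤ 4 + 4 * C := by
  have hw2 : (2 : ℝ) ≤ w := by exact_mod_cast hw
  have hl2 : (1 : ℝ) / 2 < Real.log 2 := by
    have := Real.log_two_gt_d9
    linarith
  have hlw : Real.log 2 ≤ Real.log w := Real.log_le_log (by norm_num) hw2
  set lw := Real.log w with hlwd
  have hlw0 : 0 < lw := by linarith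
  set x : ℝ := 1 + 1 / (2 * lw) with hx
  have hx1 : 1 < x := by
    have : 0 < 1 / (2 * lw) := by positivity
    linarith
  have hx2 : x ≤ 2 := by
    have : 1 / (2 * lw) ≤ 1 := by
      rw [div_le_one (by positivity)]
      linarith
    linarith
  have hxs : x - 1 = 1 / (2 * lw) := by rw [hx]; ring
  have hphi : (m.totient : ℝ)⁻¹ ≤ 1 := by
    have h1 : (1 : ℝ) ≤ m.totient := by
      exact_mod_cast Nat.totient_pos.mpr (Nat.pos_of_ne_zero (NeZero.ne m))
    exact inv_le_one_of_one_le₀ h1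
  have hphi0 : 0 ≤ (m.totient : ℝ)⁻¹ := by positivity
  have hD := abs_le.1 (hC x hx1 hx2)
  set D := ∑' n : ℕ, PAP_u m a n * Real.log n / (n : ℝ) ^ x with hDdef
  have hDs := PAP_D_summable m a x hx1
  have hGs := PAP_G_summable m a x hx1
  have hD1 : D ≤ 2 * lw + C := by
    have h1 : (m.totient : ℝ)⁻¹ / (x - 1) = (m.totient : ℝ)⁻¹ * (2 * lw) := by
      rw [hxs]
      field_simp
    have h2 : (m.totient : ℝ)⁻¹ * (2 * lw) ≤ 1 * (2 * lw) :=
      mul_le_mul_of_nonneg_right hphi (by linarith)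
    rw [h1] at hD
    linarith [hD.2]
  have hD0 : 0 ≤ D := by
    refine tsum_nonneg fun n => ?_
    exact div_nonneg (mul_nonneg (PAP_u_nonneg m a n) (Real.log_natCast_nonneg n))
      (Real.rpow_nonneg (Nat.cast_nonneg n) x)
  -- terms up to `w`
  have hterm : ∀ n ∈ range (w + 1), 0 ≤ PAP_u m a n / (n : ℝ) - PAP_u m a n / (n : ℝ) ^ x ∧
      PAP_u m a n / (n : ℝ) - PAP_u m a n / (n : ℝ) ^ x ≤
        2 * (x - 1) * (PAP_u m a n * Real.log n / (n : ℝ) ^ x) := by
    intro n hn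
    have hnw : n ≤ w := by
      rw [mem_range] at hn
      omega
    refine ⟨?_, ?_⟩
    · have := PAP_div_le n x hx1.le _ (PAP_u_nonneg m a n)
      linarith
    · rcases Nat.eq_zero_or_pos n with h | h
      · subst h
        rw [PAP_u_zero]
        simp
      · have hn0 : (0 : ℝ) < n := by exact_mod_cast h
        have hn1 : (1 : ℝ) ≤ n := by exact_mod_cast h
        have hln : 0 ≤ Real.log n := Real.log_natCast_nonneg n
        have hlnw : Real.log n ≤ lw := Real.log_le_log hn0 (by exact_mod_cast hnw)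
        have hp : (n : ℝ) ^ x = (n : ℝ) * Real.exp ((x - 1) * Real.log n) := by
          have h1 : x = 1 + (x - 1) := by ring
          have h3 : (n : ℝ) ^ x = (n : ℝ) ^ (1 : ℝ) * (n : ℝ) ^ (x - 1) := by
            rw [← Real.rpow_add hn0, ← h1]
          rw [h3, Real.rpow_one, Real.rpow_def_of_pos hn0 (x - 1), mul_comm (Real.log n) (x - 1)]
        have ht : (x - 1) * Real.log n ≤ 1 / 2 := by
          rw [hxs, div_mul_eq_mul_div, one_mul, div_le_iff₀ (by positivity)]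
          linarith
        have ht0 : 0 ≤ (x - 1) * Real.log n := mul_nonneg (by linarith) hln
        set t := (x - 1) * Real.log n with htd
        have hexp2 : Real.exp t ≤ 2 := by
          have h1 : Real.exp t ≤ Real.exp (Real.log 2) :=
            Real.exp_le_exp.2 (by linarith)
          rwa [Real.exp_log (by norm_num)] at h1
        have hexp1 : 1 - t ≤ Real.exp (-t) := by
          have := Real.add_one_le_exp (-t)
          linarith
        have hepos := Real.exp_pos t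
        -- exp t - 1 ≤ t * exp t
        have h4 : Real.exp t - 1 ≤ t * Real.exp t := by
          have h5 : Real.exp (-t) * Real.exp t = 1 := by
            rw [← Real.exp_add]
            simp
          have h6 := mul_le_mul_of_nonneg_right hexp1 hepos.le
          rw [h5] at h6
          linarith
        have h7 : Real.exp t - 1 ≤ 2 * t := by
          have := mul_le_mul_of_nonneg_left hexp2 ht0
          linarith
        have h8 : PAP_u m a n / (n : ℝ) - PAP_u m a n / (n : ℝ) ^ x =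
            PAP_u m a n / (n : ℝ) ^ x * (Real.exp t - 1) := by
          rw [hp]
          field_simp
        have h9 : 2 * (x - 1) * (PAP_u m a n * Real.log n / (n : ℝ) ^ x) =
            PAP_u m a n / (n : ℝ) ^ x * (2 * t) := by
          rw [htd]
          ring
        rw [h8, h9]
        exact mul_le_mul_of_nonneg_left h7
          (div_nonneg (PAP_u_nonneg m a n) (Real.rpow_nonneg hn0.le x))
  have hsum1 : 0 ≤ ∑ n ∈ range (w + 1), PAP_u m a n / (n : ℝ) -
      ∑ n ∈ range (w + 1), PAP_u m a n / (n : ℝ) ^ x := by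
    rw [← sum_sub_distrib]
    exact sum_nonneg fun n hn => (hterm n hn).1
  have hpos : ∀ n : ℕ, 0 ≤ PAP_u m a n * Real.log n / (n : ℝ) ^ x := fun n =>
    div_nonneg (mul_nonneg (PAP_u_nonneg m a n) (Real.log_natCast_nonneg n))
      (Real.rpow_nonneg (Nat.cast_nonneg n) x)
  have hsum2 : ∑ n ∈ range (w + 1), PAP_u m a n / (n : ℝ) -
      ∑ n ∈ range (w + 1), PAP_u m a n / (n : ℝ) ^ x ≤ 2 * (x - 1) * D := by
    rw [← sum_sub_distrib]
    refine (sum_le_sum fun n hn => (hterm n hn).2).trans ?_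
    rw [← mul_sum]
    refine mul_le_mul_of_nonneg_left ?_ (by linarith)
    exact hDs.sum_le_tsum _ (fun n _ => hpos n)
  have hsum3 : 2 * (x - 1) * D ≤ 2 + 2 * C := by
    rw [hxs]
    have h1 : 2 * (1 / (2 * lw)) * D = D / lw := by
      field_simp
    rw [h1, div_le_iff₀ hlw0]
    have h2 : (1 : ℝ) / 2 ≤ lw := by linarith
    have h3 : C * (1 / 2) ≤ C * lw := mul_le_mul_of_nonneg_left h2 hC0
    linarith
  -- the tail
  have htail : ∑' n : ℕ, PAP_u m a n / (n : ℝ) ^ x =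
      ∑ n ∈ range (w + 1), PAP_u m a n / (n : ℝ) ^ x +
        ∑' n : ℕ, PAP_u m a (n + (w + 1)) / ((n + (w + 1) : ℕ) : ℝ) ^ x :=
    (hGs.sum_add_tsum_nat_add (w + 1)).symm
  have htl0 : 0 ≤ ∑' n : ℕ, PAP_u m a (n + (w + 1)) / ((n + (w + 1) : ℕ) : ℝ) ^ x :=
    tsum_nonneg fun n => div_nonneg (PAP_u_nonneg m a _) (Real.rpow_nonneg (Nat.cast_nonneg _) x)
  have htl : ∑' n : ℕ, PAP_u m a (n + (w + 1)) / ((n + (w + 1) : ℕ) : ℝ) ^ x ≤ D / lw := by
    have h1 : Summable fun n : ℕ => PAP_u m a (n + (w + 1)) * Real.log ((n + (w + 1) : ℕ) : ℝ) /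
        ((n + (w + 1) : ℕ) : ℝ) ^ x := (summable_nat_add_iff (w + 1)).2 hDs
    have h2 : ∑' n : ℕ, PAP_u m a (n + (w + 1)) * Real.log ((n + (w + 1) : ℕ) : ℝ) /
        ((n + (w + 1) : ℕ) : ℝ) ^ x ≤ D := by
      have h3 := hDs.sum_add_tsum_nat_add (w + 1)
      have h4 : 0 ≤ ∑ n ∈ range (w + 1), PAP_u m a n * Real.log n / (n : ℝ) ^ x :=
        sum_nonneg fun n _ => hpos n
      rw [hDdef, ← h3]
      linarith
    rw [le_div_iff₀ hlw0, ← tsum_mul_right]
    refine le_trans (Summable.tsum_le_tsum (fun n => ?_) ?_ h1) h2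
    · have h5 : lw ≤ Real.log ((n + (w + 1) : ℕ) : ℝ) :=
        Real.log_le_log (by linarith) (by push_cast; linarith [(Nat.cast_nonneg n : (0 : ℝ) ≤ n)])
      rw [div_mul_eq_mul_div]
      refine div_le_div_of_nonneg_right ?_ (Real.rpow_nonneg (Nat.cast_nonneg _) x)
      exact mul_le_mul_of_nonneg_left h5 (PAP_u_nonneg m a _)
    · exact ((summable_nat_add_iff (w + 1)).2 hGs).mul_right lw
  have htl2 : D / lw ≤ 2 + 2 * C := by
    rw [div_le_iff₀ hlw0]
    have h2 : (1 : ℝ) / 2 ≤ lw := by linarith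
    have h3 : C * (1 / 2) ≤ C * lw := mul_le_mul_of_nonneg_left h2 hC0
    linarith
  rw [htail, abs_le]
  constructor <;> linarith

lemma PAP_main (m : ℕ) [NeZero m] (a : ZMod m) (ha : IsUnit a) :
    ∃ K : ℝ, 0 ≤ K ∧ ∀ w : ℕ, 2 ≤ w →
      |∑ n ∈ range (w + 1), PAP_u m a n / (n : ℝ) -
        (m.totient : ℝ)⁻¹ * Real.log (Real.log w)| ≤ K := by
  obtain ⟨C, hC0, hC⟩ := PAP_D m a ha
  obtain ⟨C', hC'0, hC'⟩ := PAP_G m a ha
  refine ⟨4 + 4 * C + C' + (m.totient : ℝ)⁻¹ * Real.log 2, ?_, ?_⟩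
  · have h1 : 0 ≤ (m.totient : ℝ)⁻¹ * Real.log 2 :=
      mul_nonneg (by positivity) (Real.log_nonneg (by norm_num))
    linarith
  intro w hw
  have hw2 : (2 : ℝ) ≤ w := by exact_mod_cast hw
  have hl2 : (1 : ℝ) / 2 < Real.log 2 := by
    have := Real.log_two_gt_d9
    linarith
  have hlw : Real.log 2 ≤ Real.log w := Real.log_le_log (by norm_num) hw2
  have hlw0 : 0 < Real.log w := by linarith
  have h1 := PAP_trunc m a C hC0 hC w hw
  have hx1 : 1 < 1 + 1 / (2 * Real.log w) := by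
    have : 0 < 1 / (2 * Real.log w) := by positivity
    linarith
  have hx2 : 1 + 1 / (2 * Real.log w) ≤ 2 := by
    have : 1 / (2 * Real.log w) ≤ 1 := by
      rw [div_le_one (by positivity)]
      linarith
    linarith
  have h2 := hC' _ hx1 hx2
  have h3 : Real.log (1 + 1 / (2 * Real.log w) - 1) = -(Real.log 2 + Real.log (Real.log w)) := by
    have h4 : 1 + 1 / (2 * Real.log w) - 1 = (2 * Real.log w)⁻¹ := by
      rw [one_div]
      ring
    rw [h4, Real.log_inv, Real.log_mul (by norm_num) hlw0.ne']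
  rw [h3] at h2
  have h5 := abs_le.1 h1
  have h6 := abs_le.1 h2
  have h7 : 0 ≤ (m.totient : ℝ)⁻¹ * Real.log 2 :=
    mul_nonneg (by positivity) (Real.log_nonneg (by norm_num))
  have h8 : (m.totient : ℝ)⁻¹ * -(Real.log 2 + Real.log (Real.log w)) =
      -((m.totient : ℝ)⁻¹ * Real.log 2) - (m.totient : ℝ)⁻¹ * Real.log (Real.log w) := by ring
  rw [h8] at h6
  rw [abs_le]
  constructor
  · linarith [h5.1, h6.1]
  · linarith [h5.2, h6.2]

theorem st_PAP : ST_PAP := by
  intro q a hq ha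
  have : NeZero q := ⟨by omega⟩
  obtain ⟨K, hK0, hK⟩ := PAP_main q a ha
  refine ⟨2 * K, by linarith, fun u w hu huw => ?_⟩
  have hu2 : (2 : ℝ) ≤ u := by exact_mod_cast hu
  have hw2 : (2 : ℝ) ≤ w := by exact_mod_cast (hu.trans huw)
  have hlu : 0 < Real.log u := Real.log_pos (by linarith)
  have hlw : 0 < Real.log w := Real.log_pos (by linarith)
  have h1 := abs_le.1 (hK u hu)
  have h2 := abs_le.1 (hK w (hu.trans huw))
  have hLL : LL u w = Real.log (Real.log w) - Real.log (Real.log u) := by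
    unfold LL
    rw [Real.log_div hlw.ne' hlu.ne']
  have hs : ∑ p ∈ (PP u w).filter (fun p : ℕ => (p : ZMod q) = a), 1 / (p : ℝ) =
      ∑ n ∈ range (w + 1), PAP_u q a n / (n : ℝ) - ∑ n ∈ range (u + 1), PAP_u q a n / (n : ℝ) := by
    have h3 : range (w + 1) = range (u + 1) ∪ Ioc u w := by
      ext n
      simp only [mem_range, mem_union, mem_Ioc]
      omega
    have h4 : Disjoint (range (u + 1)) (Ioc u w) := by
      rw [Finset.disjoint_left]
      intro n hn
      simp only [mem_range] at hn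
      simp only [mem_Ioc]
      omega
    rw [h3, sum_union h4, add_sub_cancel_left]
    unfold PP
    rw [sum_filter, sum_filter]
    refine sum_congr rfl fun n _ => ?_
    unfold PAP_u
    by_cases hp : n.Prime
    · by_cases ha : (n : ZMod q) = a
      · rw [if_pos hp, if_pos ha, if_pos hp, if_pos ha]
      · rw [if_pos hp, if_neg ha, if_pos hp, if_neg ha, zero_div]
    · rw [if_neg hp, if_neg hp, zero_div]
  rw [hs, hLL]
  have h5 : (Real.log (Real.log w) - Real.log (Real.log u)) / (q.totient : ℝ) =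
      (q.totient : ℝ)⁻¹ * Real.log (Real.log w) - (q.totient : ℝ)⁻¹ * Real.log (Real.log u) := by
    ring
  rw [h5, abs_le]
  constructor
  · linarith [h1.1, h1.2, h2.1, h2.2]
  · linarith [h1.1, h1.2, h2.1, h2.2]

end Pool.Agent.Helper2.SO
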